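import Pool.Agent.Y346.EH.Dia

/-!
# A sharper form of Ehrhart's inequality: diagonal shadows instead of the surface area

`IsIntrinsic K v` (file `Pool/Agent/W503/EH/Final.lean`): the numbers `v 0, ..., v d` are the
intrinsic volumes of `K`, that is, Steiner's formula
`V(K + ρ B) = ∑ κ_{d-i} ρ^{d-i} v_i` holds for all `ρ ≥ 0`; so `F(K) = 2 v_{d-1}`.
`latticeBox K` is the smallest lattice box containing `K`, `latticePoints d` is the set of the points
of `ℝ^d` with integer coordinates.

`shadow e K` (file `Pool/Agent/Y346/EH/Sh.lean`), for a sign vector `e` of length `m` and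
`K ⊆ ℝ^(m+1)`, is the projection of `K` along the diagonal direction `(1, e)` to the hyperplane
`x 0 = 0`, and `meanShadow K` is the average of the `m`-dimensional volumes of these `2 ^ m` shadows.
`diamond N` is the square with the vertices `(± N, 0)`, `(0, ± N)`.
-/

namespace Pool.Agent.Results.MP_0139c6_co.MeanShadowBound

open MeasureTheory Pool.Agent.W503.EH Pool.Agent.Y346.EH

/-- (1) Let `K` be a nonempty compact convex set in `ℝ^d`, `d = m + 1 ≥ 1`, and `Q` its smallest
lattice box. Then `G(K) ≤ V(K) + D(K) + ∑_{i ≤ d-2} V_i(Q)`, where `D(K)` is the average of the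
volumes of the `2 ^ (d-1)` diagonal shadows of `K`, and `D(K) ≤ V_{d-1}(K) = F(K) / 2`.
(2) For `d = 2` the first inequality is an equality for all the diamonds (for which
`D(K) = 2 N`, `V(K) = 2 N ^ 2` and the sum is `V_0(Q) = 1`). -/
theorem result :
    (∀ (m : ℕ) (K : Set (EuclideanSpace ℝ (Fin (m + 1)))), IsCompact K → Convex ℝ K →
      K.Nonempty → ∀ v w : ℕ → ℝ, IsIntrinsic K v → IsIntrinsic (latticeBox K) w →
        ((K ∩ latticePoints (m + 1)).ncard : ℝ) ≤
          volume.real K + meanShadow K + ∑ i ∈ Finset.range m, w i ∧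
        meanShadow K ≤ v m) ∧
    (∀ N : ℕ, ((diamond N ∩ latticePoints 2).ncard : ℝ) =
        volume.real (diamond N) + meanShadow (diamond N) + 1 ∧
      volume.real (diamond N) = 2 * N ^ 2 ∧ meanShadow (diamond N) = 2 * N) :=
  ⟨fun _ K hK hKc hne v w hv hw => ⟨sharp K hK hKc hne w hw, meanShadow_le K hK hKc hne v hv⟩,
    fun N => ⟨diamond_eq N, volume_diamond N, meanShadow_diamond N⟩⟩

end Pool.Agent.Results.MP_0139c6_co.MeanShadowBound
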